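import Pool.Agent.KS6_65.PRM.Main

/-!
# MP_a69bcc_pr, Q1: no cycles for almost all dice with two values

Let `s = 2 N ≥ 10 ^ 6` be even.  For `θ ∈ [1/4, 1/2]` consider the die with `s` faces, `N` of them of
probability `(1 + θ) / s` and `N` of them of probability `(1 - θ) / s`.  For all `θ ∈ [1/4, 1/2]`
outside a set of Lebesgue measure at most `5200 / s`, a word `A` which beats a word `B` with
probability larger than `1/2` has a smaller mean waiting time than `B`; so there are no cycles, of
any length.

The notions `ProbVec`, `source`, `EndsAt`, `tau`, `winProb` are those of the library module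
`Pool/Graph/R_pool_sql_team_seeded_843ab51a/V11300/PR/Basic.lean`.
-/

set_option autoImplicit false

open MeasureTheory
open Pool.Agent.V11300.PR

namespace Pool.Agent.Results.MP_a69bcc_pr.AlmostAllParameters

/-- the mean waiting time of the word `T`: `E τ_T = ∑_{n ≥ 0} P(τ_T > n)` -/
noncomputable def meanTau {α : Type*} [Fintype α] [MeasurableSpace α] (v : ProbVec α)
    (T : List α) : ENNReal :=
  ∑' n : ℕ, (source v) {x | (n : ℕ∞) < tau T x}

/-- the class of a letter -/
def cl (N : ℕ) (i : Fin (2 * N)) : Bool := decide (i.val < N)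

/-- the two-valued vector -/
noncomputable def vec (N : ℕ) (hN : 0 < N) (θ : ℝ) (h0 : 0 ≤ θ) (h1 : θ ≤ 1 / 2) :
    ProbVec (Fin (2 * N)) where
  p := fun i => q (2 * N : ℝ) θ (cl N i)
  nonneg := fun i => (q_pos (by positivity) h0 h1 _).le
  sum_eq := by
    have hN' : (N : ℝ) ≠ 0 := by positivity
    have h2 : ∑ i : Fin (2 * N), q (2 * N : ℝ) θ (cl N i) =
        ∑ i ∈ Finset.range (2 * N), q (2 * N : ℝ) θ (decide (i < N)) :=
      Fin.sum_univ_eq_sum_range (fun i => q (2 * N : ℝ) θ (decide (i < N))) (2 * N)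
    rw [h2, two_mul N, Finset.sum_range_add]
    have e1 : ∑ i ∈ Finset.range N, q (2 * N : ℝ) θ (decide (i < N)) =
        ∑ i ∈ Finset.range N, (1 + θ) / (2 * N : ℝ) := by
      refine Finset.sum_congr rfl fun i hi => ?_
      rw [Finset.mem_range] at hi
      simp [q, hi]
    have e2 : ∑ i ∈ Finset.range N, q (2 * N : ℝ) θ (decide (N + i < N)) =
        ∑ i ∈ Finset.range N, (1 - θ) / (2 * N : ℝ) := by
      refine Finset.sum_congr rfl fun i hi => ?_
      have : ¬ N + i < N := by omega
      simp [q, this]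
    rw [e1, e2, Finset.sum_const, Finset.sum_const, Finset.card_range, nsmul_eq_mul,
      nsmul_eq_mul]
    field_simp
    ring

/-- **Main theorem.**  Let `N ≥ 500000`.  There is a set `E` of real numbers of Lebesgue measure at
most `2600 / N` such that, for every `θ ∈ [1/4, 1/2]` outside `E`, the probability vector on `2 N`
letters with the values `(1 + θ) / (2 N)` and `(1 - θ) / (2 N)`, each taken `N` times, which is
full-support and non-uniform, has the following property: if `A` beats `B` with probability larger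
than `1/2` then the mean waiting time of `A` is smaller than that of `B`. In particular there are no
cycles. -/
theorem result (N : ℕ) (hN : 500000 ≤ N) :
    ∃ E : Set ℝ, volume E ≤ ENNReal.ofReal (2600 / N) ∧
      ∀ θ : ℝ, θ ∈ Set.Icc (1 / 4 : ℝ) (1 / 2) → θ ∉ E →
        ∃ v : ProbVec (Fin (2 * N)),
          (∀ i, v.p i = if i.val < N then (1 + θ) / (2 * N) else (1 - θ) / (2 * N)) ∧
          (∀ i, 0 < v.p i) ∧ (∃ i j, v.p i ≠ v.p j) ∧
          (∀ A B : List (Fin (2 * N)), A ≠ [] → B ≠ [] → 1 / 2 < winProb v A B →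
            meanTau v A < meanTau v B) ∧
          (∀ (k : ℕ) (W : ℕ → List (Fin (2 * N))), (∀ i ≤ k, W i ≠ []) →
            (∀ i < k, 1 / 2 < winProb v (W i) (W (i + 1))) →
            ¬ 1 / 2 < winProb v (W k) (W 0)) := by
  have hs : (1000000 : ℝ) ≤ 2 * N := by
    have : (500000 : ℝ) ≤ N := by exact_mod_cast hN
    linarith
  refine ⟨⋃ n : ℕ, BadLevel (2 * N : ℝ) (n + 1), ?_, ?_⟩
  · refine (Pool.Agent.KS6_65.PRM.vol_bad hs).trans (ENNReal.ofReal_le_ofReal (le_of_eq ?_))
    rw [show (5200 : ℝ) = 2 * 2600 by norm_num, mul_div_mul_left _ _ (by norm_num : (2 : ℝ) ≠ 0)]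
  · intro θ hθ hE
    have hgood : ∀ m : ℕ, 0 < m → θ ∉ BadLevel (2 * N : ℝ) m := by
      intro m hm hmem
      apply hE
      rw [Set.mem_iUnion]
      exact ⟨m - 1, by rwa [Nat.sub_add_cancel hm]⟩
    have h0 : (0:ℝ) ≤ θ := by linarith [hθ.1]
    set v := vec N (by omega) θ h0 hθ.2 with hv
    have hp : ∀ a, v.p a = q (2 * N : ℝ) θ (cl N a) := fun a => rfl
    have hpos : ∀ a, 0 < v.p a := fun a => by
      rw [hp]; exact q_pos (by linarith) h0 hθ.2 _
    have hw : ∀ i, v.p i = if i.val < N then (1 + θ) / (2 * N) else (1 - θ) / (2 * N) := by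
      intro i
      rw [hp]
      by_cases h : i.val < N <;> simp [q, cl, h]
    have key : ∀ A B : List (Fin (2 * N)), A ≠ [] → B ≠ [] → 1 / 2 < winProb v A B →
        EE v.p A < EE v.p B := by
      intro A B hA hB h
      by_contra hcon
      push Not at hcon
      have h4 := adv_nonpos hs hθ hgood hp v.sum_eq hA hB hcon
      have h5 := winProb_eq_adv v hpos A B hA hB
      linarith
    refine ⟨v, hw, hpos, ⟨⟨0, by omega⟩, ⟨N, by omega⟩, ?_⟩, ?_, ?_⟩
    · rw [hw, hw, if_pos (by simp; omega), if_neg (by simp)]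
      intro h
      rw [div_left_inj' (by linarith)] at h
      linarith [hθ.1]
    · intro A B hA hB h
      have h1 := key A B hA hB h
      unfold meanTau
      rw [Pool.Agent.KS6_65.PRM.mean_eq v hpos A hA, Pool.Agent.KS6_65.PRM.mean_eq v hpos B hB]
      have h2 : 0 ≤ EE v.p A := Finset.sum_nonneg fun k _ => cc_nonneg hpos A k
      exact (ENNReal.ofReal_lt_ofReal_iff (lt_of_le_of_lt h2 h1)).2 h1
    · intro k W hne hW hk
      have h1 : ∀ i ≤ k, EE v.p (W 0) ≤ EE v.p (W i) := by
        intro i
        induction i with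
        | zero => intro _; exact le_rfl
        | succ i ih =>
          intro hi
          exact (ih (by omega)).trans
            (key _ _ (hne i (by omega)) (hne (i + 1) hi) (hW i (by omega))).le
      have h2 := key _ _ (hne k le_rfl) (hne 0 (by omega)) hk
      linarith [h1 k le_rfl]

end Pool.Agent.Results.MP_a69bcc_pr.AlmostAllParameters
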